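import Pool.Agent.EDG.Stmts

set_option autoImplicit false

/-! Row NRM of squad EDG: norms of absolute value less than one. -/

namespace Pool.Agent.EDG.H26

open Polynomial Finset

lemma prod_norm_lt {m : Multiset ℂ} (f : ℂ → ℂ) (hf : ∀ z ∈ m, ‖f z‖ < 1) :
    ‖(m.map f).prod‖ ≤ 1 ∧ (m ≠ 0 → ‖(m.map f).prod‖ < 1) := by
  induction m using Multiset.induction_on with
  | empty => simp
  | cons a m ih =>
    have ha := hf a (Multiset.mem_cons_self a m)
    obtain ⟨h1, -⟩ := ih (fun z hz => hf z (Multiset.mem_cons_of_mem hz))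
    have h2 : ‖((a ::ₘ m).map f).prod‖ < 1 := by
      rw [Multiset.map_cons, Multiset.prod_cons, norm_mul]
      calc ‖f a‖ * ‖(m.map f).prod‖ ≤ ‖f a‖ * 1 :=
            mul_le_mul_of_nonneg_left h1 (norm_nonneg _)
        _ < 1 := by linarith
    exact ⟨h2.le, fun _ => h2⟩

theorem nrm : NrmStmt := by
  intro g r hg hirr hz
  have hinj : Function.Injective (Int.castRingHom ℂ) := (Int.castRingHom ℂ).injective_int
  have hgd : 0 < g.natDegree := by
    rcases Nat.eq_zero_or_pos g.natDegree with h0 | h0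
    · exact absurd (by rw [hg.natDegree_eq_zero.mp h0]; exact isUnit_one) hirr.not_isUnit
    · exact h0
  set gC : ℂ[X] := g.map (Int.castRingHom ℂ) with hgC
  set rC : ℂ[X] := r.map (Int.castRingHom ℂ) with hrC
  have hmon : gC.Monic := hg.map _
  have hdeg : gC.natDegree = g.natDegree := hg.natDegree_map _
  have hspl : gC.Splits := IsAlgClosed.splits gC
  have hres := resultant_eq_prod_eval gC rC r.natDegree
    (by rw [hrC]; exact natDegree_map_le) hspl
  rw [hmon.leadingCoeff, one_pow, one_mul, hdeg, hgC, hrC, resultant_map_map] at hres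
  have hroot : ∀ z ∈ gC.roots, aeval z g = 0 := by
    intro z hzr
    have h := (mem_roots hmon.ne_zero).mp hzr
    rw [IsRoot, hgC, eval_map] at h
    rw [aeval_def]
    exact h
  have hev : ∀ z : ℂ, rC.eval z = aeval z r := by
    intro z
    rw [hrC, eval_map, aeval_def]
    rfl
  have hne : gC.roots ≠ 0 := by
    intro h0
    have h1 : gC.natDegree = Multiset.card gC.roots := hspl.natDegree_eq_card_roots
    rw [h0, Multiset.card_zero, hdeg] at h1
    omega
  have hlt := (prod_norm_lt (m := gC.roots) (fun z => rC.eval z) (fun z hzr => by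
    rw [hev z]; exact hz z (hroot z hzr))).2 hne
  have h0 : resultant g r g.natDegree r.natDegree = 0 := by
    have h1 : ‖((resultant g r g.natDegree r.natDegree : ℤ) : ℂ)‖ < 1 := by
      have h2 : ((resultant g r g.natDegree r.natDegree : ℤ) : ℂ) =
          (gC.roots.map fun z => rC.eval z).prod := hres
      rw [h2]; exact hlt
    rw [Complex.norm_intCast] at h1
    have h3 : |(resultant g r g.natDegree r.natDegree : ℤ)| < 1 := by exact_mod_cast h1
    exact Int.abs_lt_one_iff.mp h3
  rw [h0, map_zero] at hres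
  have hex : (0 : ℂ) ∈ gC.roots.map (fun z => rC.eval z) := Multiset.prod_eq_zero_iff.mp hres.symm
  obtain ⟨z, hzr, hrz⟩ := Multiset.mem_map.mp hex
  have hgz := hroot z hzr
  have hrz' : aeval z r = 0 := by rw [← hev z]; exact hrz
  have hint : IsIntegral ℤ z := ⟨g, hg, by rw [← aeval_def]; exact hgz⟩
  have d1 : minpoly ℤ z ∣ g := minpoly.isIntegrallyClosed_dvd hint hgz
  have d2 : minpoly ℤ z ∣ r := minpoly.isIntegrallyClosed_dvd hint hrz'
  have d3 : Associated (minpoly ℤ z) g :=
    (associated_of_dvd_dvd d1 (by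
      obtain ⟨c, hc⟩ := d1
      rcases hirr.isUnit_or_isUnit hc with h | h
      · exact absurd h (minpoly.not_isUnit ℤ z)
      · obtain ⟨u, hu⟩ := h
        refine ⟨(↑u⁻¹ : ℤ[X]), ?_⟩
        rw [hc, ← hu, mul_assoc, Units.mul_inv, mul_one]))
  exact d3.symm.dvd.trans d2

end Pool.Agent.EDG.H26
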